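import Pool.Agent.Q5.DC.Real
import Pool.Agent.Q5.AP.Dist
import Pool.Agent.Q5.AP.Two

/-!
# The limiting logarithmic distribution of an error term
-/

set_option autoImplicit false

open MeasureTheory Filter Topology Set Complex

namespace Pool.Agent.Q5.DC

open Pool.Agent.TH270.MS (BM)
open Pool.Agent.Q5.BP (MSq BSq)
open Pool.Agent.Q5.AP (Par cut cm cm_zero dist_of prod_mean)

/-- `ν` is the limiting logarithmic distribution of `log x · δ(x)`. -/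
def IsLimitLaw (δ : ℝ → ℝ) (ν : Measure ℝ) : Prop :=
  IsProbabilityMeasure ν ∧ ∀ φ : ℝ → ℝ, Continuous φ → (∃ B : ℝ, ∀ y, |φ y| ≤ B) →
    Tendsto (fun X : ℝ => (∫ x in Real.exp 1..X, φ (Real.log x * δ x) / x) / Real.log X) atTop
      (𝓝 (∫ y, φ y ∂ν))

/-- There is a limiting logarithmic distribution with a second moment, the limit of the mean squares. -/
def HasLimitLaw (δ : ℝ → ℝ) : Prop :=
  ∃ ν : Measure ℝ, IsLimitLaw δ ν ∧ Integrable (fun y : ℝ => y ^ 2) ν ∧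
    Tendsto (fun X : ℝ => (∫ x in Real.exp 1..X, (Real.log x * δ x) ^ 2 / x) / Real.log X) atTop
      (𝓝 (∫ y, y ^ 2 ∂ν))

open Classical in
/-- the logarithmic proportion of the `x` in `[e, X]` with `log x · δ(x) > c` -/
noncomputable def shareAbove (δ : ℝ → ℝ) (c X : ℝ) : ℝ :=
  (∫ x in Real.exp 1..X, if c < Real.log x * δ x then 1 / x else 0) / Real.log X

/-- There is exactly one limiting logarithmic distribution `ν`; its mean is `0`, its variance is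
`∑ m_t²/t²`, the limit of the mean squares, and `{x : log x · δ(x) > c}` has the logarithmic density
`ν(c, ∞)` if `ν{c} = 0`. -/
def LimitLaw (m : ℝ → ℕ) (δ : ℝ → ℝ) : Prop :=
  ∃ ν : Measure ℝ, (IsLimitLaw δ ν ∧ ∀ ν' : Measure ℝ, IsLimitLaw δ ν' → ν' = ν) ∧
    Integrable (fun y : ℝ => y ^ 2) ν ∧ ∫ y, y ∂ν = 0 ∧
    HasSum (fun t : ℝ => ((m t : ℝ) / t) ^ 2) (∫ y, y ^ 2 ∂ν) ∧
    Tendsto (fun X : ℝ => (∫ x in Real.exp 1..X, (Real.log x * δ x) ^ 2 / x) / Real.log X) atTop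
      (𝓝 (∫ y, y ^ 2 ∂ν)) ∧
    ∀ c : ℝ, ν {c} = 0 → Tendsto (shareAbove δ c) atTop (𝓝 (ν.real (Ioi c)))

theorem law_unique {δ : ℝ → ℝ} {ν ν' : Measure ℝ} (h : IsLimitLaw δ ν) (h' : IsLimitLaw δ ν') :
    ν' = ν := by
  obtain ⟨h1, h2⟩ := h
  obtain ⟨h1', h2'⟩ := h'
  refine ext_of_forall_integral_eq_of_IsFiniteMeasure fun φ => ?_
  have hB : ∃ B : ℝ, ∀ y, |φ y| ≤ B := ⟨‖φ‖, fun y => φ.norm_coe_le_norm y⟩
  exact tendsto_nhds_unique (h2' φ φ.continuous hB) (h2 φ φ.continuous hB)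

/-- `Par` gives the limit law -/
theorem law_of_par {m : ℝ → ℕ} {δ : ℝ → ℝ} (hW : BM fun x => Real.log x * δ x) {V : ℝ}
    (hV : HasSum (fun t : ℝ => ((m t : ℝ) / t) ^ 2) V)
    (P : Par (fun u => (cut (fun x => Real.log x * δ x) u : ℂ)) (cm m) V) : LimitLaw m δ := by
  obtain ⟨ν, hL, hs, h1, h2, h3⟩ := dist_of hW P
  have hlaw : IsLimitLaw δ ν := ⟨hL.prob, hL.test⟩
  obtain ⟨U, hU, tU⟩ := prod_mean hW hW P P
  have eU : U = V := by
    refine hU.unique ?_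
    convert! hV using 1
    funext t
    ring
  rw [eU] at tU
  have tU' : Tendsto (fun X : ℝ => (∫ x in Real.exp 1..X, (Real.log x * δ x) ^ 2 / x) / Real.log X)
      atTop (𝓝 V) := by
    refine tU.congr fun X => ?_
    congr 2
    funext x
    ring
  refine ⟨ν, ⟨hlaw, fun ν' h' => law_unique hlaw h'⟩, h1, ?_, ?_, ?_, fun c hc => ?_⟩
  · rw [h3, cm_zero, Complex.zero_re]
  · rw [h2]
    exact hV
  · rw [h2]
    exact tU'
  · refine (hs c hc).congr fun X => ?_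
    unfold shareAbove Pool.Agent.Q5.OM.Share
    congr 2
    funext x
    split_ifs <;> simp

/-- **The criterion with the limit law.** -/
theorem law_tfae {P : Prop} {m : ℝ → ℕ} {δ : ℝ → ℝ} (hW : BM fun x => Real.log x * δ x)
    (h1 : P ↔ BSq δ)
    (h2 : P → ∃ V : ℝ, HasSum (fun t : ℝ => ((m t : ℝ) / t) ^ 2) V ∧
      Par (fun u => (cut (fun x => Real.log x * δ x) u : ℂ)) (cm m) V) :
    List.TFAE [P, BSq δ, HasLimitLaw δ, LimitLaw m δ] := by
  tfae_have 1 ↔ 2 := h1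
  tfae_have 1 → 4 := by
    intro h
    obtain ⟨V, hV, hP⟩ := h2 h
    exact law_of_par hW hV hP
  tfae_have 4 → 3 := by
    rintro ⟨ν, ⟨h1, -⟩, h2, -, -, h3, -⟩
    exact ⟨ν, h1, h2, h3⟩
  tfae_have 3 → 2 := by
    rintro ⟨ν, -, -, h3⟩
    refine ⟨(∫ y, y ^ 2 ∂ν) + 1, ?_⟩
    filter_upwards [h3.eventually (gt_mem_nhds (show ∫ y, y ^ 2 ∂ν < (∫ y, y ^ 2 ∂ν) + 1 by linarith)),
      eventually_gt_atTop 1] with X hX hX1
    rw [div_lt_iff₀ (Real.log_pos hX1)] at hX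
    exact hX.le
  tfae_finish

end Pool.Agent.Q5.DC
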